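import Pool.Agent.MP_a88b1d_nt.H42.Spec

/-! The pairing of paths in the quotient of a tree. -/

namespace Pool.Agent.MP_a88b1d_nt.H22

open Pool.Agent.MP_a88b1d_nt.H42

theorem pa (h : TA) : PA := by
  intro V _ d s G _ ρ hT hP
  have hA := h V d s hT
  have prop : ∀ x y (R : ℕ), {g | d x (ρ g * y) ≤ R}.Finite := fun x y R =>
    (hP (d 1 x + R + d y 1)).subset fun g (hg : d x (ρ g * y) ≤ R) => by
      have h1 := hT.tri 1 x (ρ g * 1)
      have h2 := hT.tri x (ρ g * y) (ρ g * 1)
      rw [hT.inv, mul_one] at h2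
      rw [mul_one] at h1
      show d 1 (ρ g) ≤ _
      omega
  have far0 : ∀ x y u u' (g : G), d x y = 1 → DD d x y (ρ g * u) (ρ g * u') ≠ 0 →
      d (ρ g * u) x ≤ d u u' := fun x y u u' g h1 h2 => by
    have := hA.far x y _ _ h1 h2
    rwa [hT.inv] at this
  have fin : ∀ x y u u', (Function.support fun g => DD d x y (ρ g * u) (ρ g * u')).Finite := by
    intro x y u u'
    refine hA.conn (fun y => (Function.support fun g => DD d x y (ρ g * u) (ρ g * u')).Finite) x
      (fun y hy => Set.finite_empty.subset fun g hg => hg ?_) (fun y y' h1 _ h2 => ?_) y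
    · simp only [DD, hA.congr x y _ hy]; ring
    · refine (h2.union (prop y u (d u u'))).subset fun g hg => ?_
      by_cases h3 : DD d y y' (ρ g * u) (ρ g * u') = 0
      · refine Or.inl fun h4 => hg ?_
        simp only [DD] at h3 h4 ⊢
        omega
      · exact Or.inr (show d y (ρ g * u) ≤ _ from hT.comm y _ ▸ far0 y y' u u' g h1 h3)
  have symm : ∀ x y u u', Psi d ρ x y u u' = Psi d ρ u u' x y := by
    intro x y u u'
    rw [Psi, Psi, ← finsum_comp_equiv (Equiv.inv G)]
    refine finsum_congr fun g => ?_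
    have e : ∀ a b, d a (ρ g⁻¹ * b) = d b (ρ g * a) := fun a b => by
      rw [← hT.inv (ρ g), ← mul_assoc, ← map_mul, mul_inv_cancel, map_one, one_mul, hT.comm]
    simp only [DD, Equiv.inv_apply, e]
    ring
  have coc : ∀ x y z u u', Psi d ρ x y u u' + Psi d ρ y z u u' = Psi d ρ x z u u' := by
    intro x y z u u'
    rw [Psi, Psi, Psi, ← finsum_add_distrib (fin _ _ _ _) (fin _ _ _ _)]
    refine finsum_congr fun g => ?_
    simp only [DD]; ring
  have coc' : ∀ x y u u' u'', Psi d ρ x y u u' + Psi d ρ x y u' u'' = Psi d ρ x y u u'' := by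
    intro x y u u' u''
    rw [symm x y, symm x y, symm x y, coc]
  have inv' : ∀ a x y u u', Psi d ρ x y (ρ a * u) (ρ a * u') = Psi d ρ x y u u' := by
    intro a x y u u'
    rw [Psi, Psi, ← finsum_comp_equiv (Equiv.mulRight a) (f := fun g => DD d x y (ρ g * u) _)]
    simp only [Equiv.coe_mulRight, map_mul, mul_assoc]
  have self : ∀ x u u', Psi d ρ x x u u' = 0 := by
    intro x u u'
    have := coc x x x u u'
    omega
  have base : ∀ a x y u, Psi d ρ x y u (ρ a * u) = Psi d ρ x y 1 (ρ a) := by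
    intro a x y u
    have h1 := coc' x y u 1 (ρ a * u)
    have h2 := coc' x y 1 (ρ a * 1) (ρ a * u)
    have h3 := coc' x y u 1 u
    rw [inv', mul_one] at h2
    rw [symm x y u u, self] at h3
    omega
  have hom : ∀ a b x y,
      Psi d ρ x y 1 (ρ (a * b)) = Psi d ρ x y 1 (ρ a) + Psi d ρ x y 1 (ρ b) := by
    intro a b x y
    have h2 := coc' x y 1 (ρ a * 1) (ρ a * ρ b)
    rw [inv', mul_one] at h2
    rw [map_mul, h2]
  refine ⟨prop, fin, symm, ?_, coc, coc', ?_, inv', self, ?_, base, ?_, hom, ?_, ?_, ?_⟩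
  · intro x y u v x' y' u' v' h1 h2 h3 h4
    refine finsum_congr fun g => ?_
    have e : ∀ a a' b b', d a a' = 0 → d b b' = 0 → d a (ρ g * b) = d a' (ρ g * b') :=
      fun a a' b b' ha hb => by
        rw [hA.congr a a' _ ha, hT.comm, hA.congr (ρ g * b) (ρ g * b') _ (by rwa [hT.inv]),
          hT.comm]
    simp only [DD, e _ _ _ _ h1 h3, e _ _ _ _ h1 h4, e _ _ _ _ h2 h3, e _ _ _ _ h2 h4]
  · intro a x y u u'
    rw [symm, inv', symm]
  · intro x y u u'
    have := coc x y x u u'
    rw [self] at this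
    omega
  · intro a x u u'
    rw [symm, base, symm]
  · intro a b u u'
    rw [symm, hom, symm u u', symm u u']
  · intro a x
    let I : G → ℤ := fun g => if d x (ρ g * 1) = 0 then 2 else 0
    have hI : (Function.support I).Finite := (prop x 1 0).subset fun g hg => by
      by_contra h0
      exact hg (if_neg fun h1 => h0 (show d x (ρ g * 1) ≤ 0 from h1.le))
    have hI' : (Function.support fun g => I (g * a)).Finite :=
      hI.preimage (f := fun g => g * a) (mul_left_injective a).injOn
    simp only [Psi]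
    rw [← finsum_sum_comm _ _ fun k _ => fin _ _ _ _]
    have e : ∀ g : G, ∑ k, DD d x (x * s k) (ρ g * 1) (ρ g * ρ a) = I g - I (g * a) := fun g => by
      have h1 := hA.star x (ρ g * 1)
      have h2 := hA.star x (ρ g * ρ a)
      simp only [Fin.sum_univ_three] at h1 h2
      simp only [DD, Fin.sum_univ_three, I, map_mul, mul_one] at h1 h2 ⊢
      split_ifs at h1 h2 ⊢ <;> omega
    rw [finsum_congr e, finsum_sub_distrib hI hI', sub_eq_zero]
    exact (finsum_comp_equiv (Equiv.mulRight a) (f := I)).symm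
  · intro x y u u' h1 h2
    by_contra h3
    refine h2 (finsum_eq_zero_of_forall_eq_zero fun g => ?_)
    by_contra h4
    exact h3 ⟨g, far0 x y u u' g h1 h4⟩

end Pool.Agent.MP_a88b1d_nt.H22
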